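import Pool.Agent.H1.EwI

namespace Pool.Agent.Results.MP_a02391_co.Maximisers

open Pool.Agent.H1.Ew Finset

/-- numerical semigroup: positive integers, closed under addition, finitely many gaps -/
def IsNS (S : Set ℕ) : Prop :=
  0 ∉ S ∧ (∀ x ∈ S, ∀ y ∈ S, x + y ∈ S) ∧ {y : ℕ | 0 < y ∧ y ∉ S}.Finite

/-- number of gaps -/
noncomputable def genus (S : Set ℕ) : ℕ := {y : ℕ | 0 < y ∧ y ∉ S}.ncard

/-- irreducible element -/
def Irred (S : Set ℕ) (x : ℕ) : Prop := x ∈ S ∧ ¬ ∃ u ∈ S, ∃ v ∈ S, u + v = x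

/-- effective weight -/
noncomputable def weff (S : Set ℕ) : ℕ :=
  {p : ℕ × ℕ | Irred S p.1 ∧ (0 < p.2 ∧ p.2 ∉ S) ∧ 0 < p.1 ∧ p.1 < p.2}.ncard

/-- maximiser of the effective weight among numerical semigroups of the same genus -/
def IsMax (S : Set ℕ) : Prop := IsNS S ∧ ∀ T, IsNS T → genus T = genus S → weff T ≤ weff S

/-- generator lists of the thirteen sporadic maximisers -/
def sporadic : List (List ℕ) :=
  [[2, 7], [3, 5], [2, 9], [4, 6, 7], [3, 7, 11], [2, 11], [4, 6, 9], [4, 5], [3, 7], [4, 6, 11],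
   [4, 6, 13], [6, 7, 8], [4, 6, 15]]

def toSet (G : Finset ℕ) : Set ℕ := {x | 0 < x ∧ x ∉ G}

theorem gaps_toSet {G : Finset ℕ} {m : ℕ} (H : NS G m) :
    {y : ℕ | 0 < y ∧ y ∉ toSet G} = (G : Set ℕ) := by
  ext y
  simp only [toSet, Set.mem_ofPred_eq, not_and, not_not, mem_coe]
  exact ⟨fun h => h.2 h.1, fun h => ⟨Nat.pos_of_ne_zero (fun h' => H.pos (h' ▸ h)), fun _ => h⟩⟩

theorem isNS_toSet {G : Finset ℕ} {m : ℕ} (H : NS G m) : IsNS (toSet G) := by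
  refine ⟨fun h => absurd h.1 (by omega), fun x hx y hy => ⟨by have := hx.1; omega,
    H.cl x y hx.1 hy.1 hx.2 hy.2⟩, ?_⟩
  rw [gaps_toSet H]; exact G.finite_toSet

theorem genus_toSet {G : Finset ℕ} {m : ℕ} (H : NS G m) : genus (toSet G) = #G := by
  unfold genus; rw [gaps_toSet H, Set.ncard_coe_finset]

theorem irred_toSet (G : Finset ℕ) (x : ℕ) : Irred (toSet G) x ↔ Irr G x := by
  unfold Irred Irr toSet
  constructor
  · rintro ⟨h1, h2⟩
    exact ⟨h1.1, h1.2, fun u v a b c d e => h2 ⟨u, ⟨a, c⟩, v, ⟨b, d⟩, e⟩⟩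
  · rintro ⟨h1, h2, h3⟩
    exact ⟨⟨h1, h2⟩, fun ⟨u, hu, v, hv, e⟩ => h3 u v hu.1 hv.1 hu.2 hv.2 e⟩

open Classical in
theorem weff_toSet {G : Finset ℕ} {m : ℕ} (H : NS G m) : weff (toSet G) = wt G := by
  unfold weff wt
  rw [← card_sigma]
  have : {p : ℕ × ℕ | Irred (toSet G) p.1 ∧ (0 < p.2 ∧ p.2 ∉ toSet G) ∧ 0 < p.1 ∧ p.1 < p.2} =
      (((G.sigma (fun y => (range y).filter (Irr G))).image
        (fun q : (_ : ℕ) × ℕ => (q.2, q.1)) : Finset (ℕ × ℕ)) : Set (ℕ × ℕ)) := by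
    ext ⟨x, y⟩
    have hy : (0 < y ∧ y ∉ toSet G) ↔ y ∈ G := by
      have := Set.ext_iff.1 (gaps_toSet H) y
      simpa using this
    simp only [Set.mem_ofPred_eq, irred_toSet, hy, coe_image, Set.mem_image, mem_coe, mem_sigma,
      mem_filter, mem_range, Prod.mk.injEq]
    constructor
    · rintro ⟨h1, h2, -, h3⟩
      exact ⟨⟨y, x⟩, ⟨h2, h3, h1⟩, rfl, rfl⟩
    · rintro ⟨⟨y', x'⟩, ⟨h2, h3, h1⟩, rfl, rfl⟩
      exact ⟨h1, h2, h1.1, h3⟩
  rw [this, Set.ncard_coe_finset, card_image_of_injective]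
  rintro ⟨a, b⟩ ⟨c, d⟩ h
  simp only [Prod.mk.injEq] at h
  obtain ⟨rfl, rfl⟩ := h
  rfl

open Classical in
theorem exists_G {S : Set ℕ} (h : IsNS S) : ∃ G m, NS G m ∧ S = toSet G := by
  obtain ⟨h0, h1, h2⟩ := h
  have hS : S = toSet h2.toFinset := by
    ext x
    simp only [toSet, Set.Finite.mem_toFinset, Set.mem_ofPred_eq, not_and, not_not]
    exact ⟨fun hx => ⟨Nat.pos_of_ne_zero (fun h' => h0 (h' ▸ hx)), fun _ => hx⟩, fun h => h.2 h.1⟩
  have hne : ∃ x, x ∈ S := by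
    obtain ⟨N, hN⟩ := h2.bddAbove
    refine ⟨N + 1, ?_⟩
    by_contra h
    have := hN (show N + 1 ∈ {y : ℕ | 0 < y ∧ y ∉ S} from ⟨by omega, h⟩)
    omega
  refine ⟨h2.toFinset, Nat.find hne, ⟨by simp, ?_, ?_, ?_, ?_⟩, hS⟩
  · intro x y hx hy hx' hy'
    simp only [Set.Finite.mem_toFinset, Set.mem_ofPred_eq, not_and, not_not] at hx' hy' ⊢
    exact fun _ => h1 x (hx' hx) y (hy' hy)
  · exact Nat.pos_of_ne_zero (fun h' => h0 (h' ▸ Nat.find_spec hne))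
  · simp only [Set.Finite.mem_toFinset, Set.mem_ofPred_eq, not_and, not_not]
    exact fun _ => Nat.find_spec hne
  · intro x hx hx'
    simp only [Set.Finite.mem_toFinset, Set.mem_ofPred_eq]
    exact ⟨hx, Nat.find_min hne hx'⟩

theorem closure_eq {G : Finset ℕ} {m : ℕ} (H : NS G m) (L : Set ℕ) (h1 : L ⊆ toSet G)
    (h2 : ∀ x, 0 < x → x ∉ G → x ∈ L ∨ ∃ u ∈ L, u < x ∧ x - u ∉ G) :
    toSet G = (AddSubsemigroup.closure L : Set ℕ) := by
  apply Set.Subset.antisymm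
  · intro x
    induction x using Nat.strong_induction_on with
    | _ x ih =>
      intro hx
      rcases h2 x hx.1 hx.2 with h | ⟨u, hu, h3, h4⟩
      · exact AddSubsemigroup.subset_closure h
      · have hu0 := (h1 hu).1
        have := ih (x - u) (by omega) ⟨by omega, h4⟩
        have := add_mem (AddSubsemigroup.subset_closure hu) this
        rwa [show u + (x - u) = x by omega] at this
  · let T : AddSubsemigroup ℕ :=
      ⟨toSet G, fun {a b} ha hb => (isNS_toSet H).2.1 a ha b hb⟩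
    exact (AddSubsemigroup.closure_le (S := T)).2 h1

theorem pair_ok1 : ∀ p ∈ sporadic.zip spor, ∀ x ∈ p.1, 0 < x ∧ x ∉ p.2 := by decide +kernel

theorem pair_ok2 : ∀ p ∈ sporadic.zip spor, ∀ x < 40,
    x = 0 ∨ x ∈ p.2 ∨ x ∈ p.1 ∨ ∃ u ∈ p.1, u < x ∧ x - u ∉ p.2 := by decide +kernel

theorem pair_ok3 : ∀ p ∈ sporadic.zip spor, ∃ u ∈ p.1, u < 15 := by decide +kernel

theorem pair_eq : ∀ p ∈ sporadic.zip spor,
    toSet p.2.toFinset = (AddSubsemigroup.closure {x | x ∈ p.1} : Set ℕ) := by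
  intro p hp
  have h1 := pair_ok1 p hp
  obtain ⟨u, hu, h3⟩ := pair_ok3 p hp
  have hl : p.2 ∈ spor := (List.of_mem_zip hp).2
  obtain ⟨m, H⟩ := spor_NS _ hl
  apply closure_eq H
  · intro x hx
    exact ⟨(h1 x hx).1, by simpa using (h1 x hx).2⟩
  · intro x hx hx'
    simp only [List.mem_toFinset, Set.mem_ofPred_eq] at hx' ⊢
    by_cases h : x < 40
    · rcases pair_ok2 p hp x h with h2 | h2 | h2
      · omega
      · exact absurd h2 hx'
      · exact h2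
    · exact Or.inr ⟨u, hu, by omega, fun h' => by have := spor_lt _ hl _ h'; omega⟩

theorem zip1 : ∀ l ∈ spor, ∃ L ∈ sporadic, (L, l) ∈ sporadic.zip spor := by decide
theorem zip2 : ∀ L ∈ sporadic, ∃ l ∈ spor, (L, l) ∈ sporadic.zip spor := by decide

theorem toSet_fam (a b : ℕ) (ha : 1 ≤ a) :
    toSet (fam a b) = {x | (a + b ≤ x ∧ x < 2 * a + b) ∨ 2 * (a + b) ≤ x} := by
  ext x
  simp only [toSet, fam, mem_union, mem_Ico, Set.mem_ofPred_eq]
  omega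

theorem toSet_inj {G G' : Finset ℕ} {m m' : ℕ} (H : NS G m) (H' : NS G' m')
    (h : toSet G = toSet G') : G = G' := by
  have h1 := gaps_toSet H
  rw [h, gaps_toSet H'] at h1
  exact (coe_injective h1).symm

theorem greatest (g : ℕ) :
    IsGreatest {w | ∃ S, IsNS S ∧ genus S = g ∧ weff S = w} ((g + 1) ^ 2 / 8) := by
  constructor
  · obtain ⟨a, b, h1, h2, h3, h4⟩ :
        ∃ a b, 1 ≤ a ∧ a ≤ 2 * b + 2 ∧ 2 * b ≤ a + 2 ∧ a + 2 * b = g + 1 :=
      ⟨g + 1 - 2 * ((g + 2) / 4), (g + 2) / 4, by omega, by omega, by omega, by omega⟩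
    have H := fam_NS a b h1
    obtain ⟨h5, h6⟩ := fam_val a b h1
    refine ⟨toSet (fam a b), isNS_toSet H, by rw [genus_toSet H]; omega, ?_⟩
    rw [weff_toSet H, h6, ← h4]
    exact (amgm_eq a b).2 ⟨h2, h3⟩
  · rintro w ⟨S, hS, rfl, rfl⟩
    obtain ⟨G, m, H, rfl⟩ := exists_G hS
    rw [genus_toSet H, weff_toSet H]
    exact H.main_le

theorem isMax_iff {G : Finset ℕ} {m : ℕ} (H : NS G m) :
    IsMax (toSet G) ↔ wt G = (#G + 1) ^ 2 / 8 := by
  constructor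
  · rintro ⟨-, h⟩
    obtain ⟨T, h1, h2, h3⟩ := (greatest #G).1
    have := h T h1 (by rw [genus_toSet H, h2])
    rw [weff_toSet H, h3] at this
    exact le_antisymm H.main_le this
  · intro h
    refine ⟨isNS_toSet H, fun T hT hg => ?_⟩
    rw [weff_toSet H, h]
    exact (greatest #G).2 ⟨T, hT, by rw [hg, genus_toSet H], rfl⟩

theorem result :
    (∀ g : ℕ, IsGreatest {w | ∃ S, IsNS S ∧ genus S = g ∧ weff S = w} ((g + 1) ^ 2 / 8)) ∧
    (∀ S : Set ℕ, IsMax S ↔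
      (∃ a b : ℕ, 1 ≤ a ∧ a ≤ 2 * b + 2 ∧ 2 * b ≤ a + 2 ∧
        S = {x | (a + b ≤ x ∧ x < 2 * a + b) ∨ 2 * (a + b) ≤ x}) ∨
      ∃ L ∈ sporadic, S = (AddSubsemigroup.closure {x | x ∈ L} : Set ℕ)) ∧
    (∀ S : Set ℕ, IsMax S → 10 ≤ genus S → ∃ c d : ℕ, 2 ≤ c ∧ c < d ∧ d < 2 * c ∧
      S = (AddSubsemigroup.closure (Set.Icc c d) : Set ℕ)) := by
  refine ⟨greatest, fun S => ⟨fun h => ?_, fun h => ?_⟩, fun S h hg => ?_⟩
  · obtain ⟨G, m, H, rfl⟩ := exists_G h.1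
    rcases H.main_eq.1 ((isMax_iff H).1 h) with ⟨a, b, h1, h2, h3, rfl⟩ | ⟨l, hl, rfl⟩
    · exact Or.inl ⟨a, b, h1, h2, h3, toSet_fam a b h1⟩
    · obtain ⟨L, hL, hp⟩ := zip1 l hl
      exact Or.inr ⟨L, hL, pair_eq _ hp⟩
  · rcases h with ⟨a, b, h1, h2, h3, rfl⟩ | ⟨L, hL, rfl⟩
    · rw [← toSet_fam a b h1]
      have H := fam_NS a b h1
      exact (isMax_iff H).2 (H.main_eq.2 (Or.inl ⟨a, b, h1, h2, h3, rfl⟩))
    · obtain ⟨l, hl, hp⟩ := zip2 L hL
      obtain ⟨m, H⟩ := spor_NS l hl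
      rw [← pair_eq _ hp]
      exact (isMax_iff H).2 (H.main_eq.2 (Or.inr ⟨l, hl, rfl⟩))
  · obtain ⟨G, m, H, rfl⟩ := exists_G h.1
    rw [genus_toSet H] at hg
    rcases H.main_eq.1 ((isMax_iff H).1 h) with ⟨a, b, h1, h2, h3, rfl⟩ | ⟨l, hl, rfl⟩
    · have := (fam_val a b h1).1
      refine ⟨a + b, 2 * a + b - 1, by omega, by omega, by omega, closure_eq H _ ?_ ?_⟩
      · intro x hx
        simp only [Set.mem_Icc] at hx
        simp only [toSet, fam, mem_union, mem_Ico, Set.mem_ofPred_eq]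
        omega
      · intro x hx hx'
        simp only [fam, mem_union, mem_Ico, Set.mem_Icc] at hx' ⊢
        by_cases c1 : x < 2 * (a + b)
        · left; omega
        · right
          by_cases c2 : x < 3 * a + 2 * b ∨ 3 * (a + b) ≤ x
          · exact ⟨a + b, by omega, by omega, by omega⟩
          · exact ⟨2 * a + b - 1, by omega, by omega, by omega⟩
    · have := spor_card l hl
      omega

end Pool.Agent.Results.MP_a02391_co.Maximisers
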